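import Pool.Agent.H93Z.KMP.Main

/-! The spectral gap of the discrete KMP process on a weighted hypergraph is the same for
every number `k ≥ 2` of particles. -/

set_option autoImplicit false

namespace Pool.Agent.Results.MP_19659a_pr.ATwoParticleGap

open Finset

/-- Configurations of `k` particles on `n` sites: functions `Fin n → ℕ` with sum `k`. -/
abbrev Conf (n k : ℕ) : Type := {f : Fin n → ℕ // f ∈ Finset.piAntidiag Finset.univ k}

/-- The configurations `g` of `k` particles that agree with `f` outside `B`. -/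
def reach {n k : ℕ} (B : Finset (Fin n)) (f : Conf n k) : Finset (Conf n k) :=
  Finset.univ.filter fun g => ∀ j, j ∉ B → g.1 j = f.1 j

/-- The matrix of `N_B` in the basis of configurations: the column of `f` is the uniform average
of the configurations in `reach B f`. -/
noncomputable def redistribute {n : ℕ} (k : ℕ) (B : Finset (Fin n)) :
    Matrix (Conf n k) (Conf n k) ℂ :=
  fun g f => if g ∈ reach B f then 1 / ((reach B f).card : ℂ) else 0

/-- The Laplacian `∑_B w_B (I - N_B)` of the discrete KMP process with `k` particles. -/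
noncomputable def laplacian {n : ℕ} (w : Finset (Fin n) → ℝ) (k : ℕ) :
    Matrix (Conf n k) (Conf n k) ℂ :=
  ∑ B : Finset (Fin n), (w B : ℂ) • (1 - redistribute k B)

/-- The spectrum with multiplicity (roots of the characteristic polynomial), with one copy of the
eigenvalue `0` removed. -/
noncomputable def reducedSpectrum {n : ℕ} (w : Finset (Fin n) → ℝ) (k : ℕ) : Multiset ℂ :=
  (laplacian w k).charpoly.roots.erase 0

/-- `l` is the smallest element of the reduced spectrum (all of whose elements are real). -/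
def IsGap {n : ℕ} (w : Finset (Fin n) → ℝ) (k : ℕ) (l : ℝ) : Prop :=
  (l : ℂ) ∈ reducedSpectrum w k ∧ ∀ z ∈ reducedSpectrum w k, z.im = 0 ∧ l ≤ z.re

open Pool.Agent.H93Z.KMP

lemma mem_reach {n k : ℕ} (B : Finset (Fin n)) (f g : Conf n k) :
    g ∈ reach B f ↔ g.1 ∈ cls B f.1 := by
  simp [reach, mem_cls, mem_Om.mp f.2, mem_Om.mp g.2]

lemma card_reach {n k : ℕ} (B : Finset (Fin n)) (f : Conf n k) :
    (reach B f).card = (cls B f.1).card := by
  refine Finset.card_bij (fun g _ => g.1) (fun g hg => (mem_reach B f g).mp hg)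
    (fun _ _ _ _ h => Subtype.ext h) fun g hg => ?_
  have hg' : g ∈ Om (Fin n) k := mem_Om.mpr ((mem_cls.mp hg).1.trans (mem_Om.mp f.2))
  exact ⟨⟨g, hg'⟩, (mem_reach B f ⟨g, hg'⟩).mpr hg, rfl⟩

lemma laplacian_eq {n : ℕ} (w : Finset (Fin n) → ℝ) (k : ℕ) :
    laplacian w k = (Lm w k).map Complex.ofRealHom := by
  ext g f
  simp only [laplacian, Lm, Matrix.sum_apply, Matrix.smul_apply, Matrix.sub_apply,
    Matrix.map_apply, map_sum, smul_eq_mul, map_mul, map_sub, redistribute, Nm, mem_reach,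
    card_reach, ker_symm _ g.1 f.1, Matrix.one_apply]
  refine Finset.sum_congr rfl fun B _ => ?_
  split_ifs <;> simp

lemma isGap_of {n : ℕ} {w : Finset (Fin n) → ℝ} {k : ℕ} {l : ℝ}
    (h : IsLeast {x | x ∈ (Lm w k).charpoly.roots.erase 0} l) : IsGap w k l := by
  have e : reducedSpectrum w k = ((Lm w k).charpoly.roots.erase 0).map Complex.ofRealHom := by
    rw [reducedSpectrum, laplacian_eq, roots_map_complex (Lm_herm w k),
      Multiset.map_erase _ Complex.ofRealHom.injective, map_zero]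
  unfold IsGap
  rw [e]
  refine ⟨Multiset.mem_map.mpr ⟨l, h.1, rfl⟩, fun z hz => ?_⟩
  obtain ⟨x, hx, rfl⟩ := Multiset.mem_map.mp hz
  exact ⟨rfl, h.2 hx⟩

theorem result (n : ℕ) (hn : 2 ≤ n) (w : Finset (Fin n) → ℝ) (hw : ∀ B, 0 ≤ w B)
    (k : ℕ) (hk : 2 ≤ k) : ∃ l : ℝ, IsGap w k l ∧ IsGap w 2 l := by
  obtain ⟨k, rfl⟩ : ∃ j, k = j + 2 := ⟨k - 2, by omega⟩
  have : Nontrivial (Fin n) := Fin.nontrivial_iff_two_le.mpr hn
  obtain ⟨l, h1, h2⟩ := two_particle hw k
  exact ⟨l, isGap_of h1, isGap_of h2⟩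

end Pool.Agent.Results.MP_19659a_pr.ATwoParticleGap
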